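import Pool.Agent.H44R2.Stk.Defs

set_option autoImplicit false

namespace Pool.Agent.H469R2.Stk

open Finset Filter Topology

/-- second order -/
lemma ex2 (c : ℂ) (s : ℕ → ℂ) (hs : Tendsto s atTop (𝓝 0))
    (hn : ∀ᶠ n : ℕ in atTop, (n : ℂ) * s n ^ 2 = 1) :
    Tendsto (fun n : ℕ => (n : ℂ) * (Complex.exp (c * s n) - 1 - c * s n)) atTop (𝓝 (c ^ 2 / 2)) := by
  have h0 : Tendsto (fun n => ‖c * s n‖) atTop (𝓝 0) := by
    have := (hs.const_mul c).norm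
    simpa using this
  have h1 : ∀ᶠ n in atTop, ‖c * s n‖ ≤ 1 := h0.eventually (ge_mem_nhds (by norm_num))
  rw [tendsto_iff_norm_sub_tendsto_zero]
  have h2 : Tendsto (fun n => ‖c‖ ^ 2 * ‖c * s n‖) atTop (𝓝 0) := by
    simpa using h0.const_mul (‖c‖ ^ 2)
  refine squeeze_zero' (Eventually.of_forall fun n => norm_nonneg _) ?_ h2
  filter_upwards [h1, hn] with n h1 hn
  have h3 := Complex.exp_bound h1 (n := 3) (by norm_num)
  have h4 : (n : ℂ) * (Complex.exp (c * s n) - 1 - c * s n) - c ^ 2 / 2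
      = (n : ℂ) * (Complex.exp (c * s n) - ∑ m ∈ range 3, (c * s n) ^ m / m.factorial) := by
    simp only [sum_range_succ, range_zero, sum_empty]
    simp only [Nat.factorial]
    push_cast
    linear_combination ((c ^ 2 / 2)) * hn
  rw [h4, norm_mul]
  have h5 : ‖(n : ℂ)‖ * ‖s n‖ ^ 2 = 1 := by
    rw [← norm_pow, ← norm_mul, hn, norm_one]
  calc ‖(n : ℂ)‖ * ‖Complex.exp (c * s n) - ∑ m ∈ range 3, (c * s n) ^ m / m.factorial‖
      ≤ ‖(n : ℂ)‖ * (‖c * s n‖ ^ 3 * (((3 : ℕ).succ : ℝ) * (((3 : ℕ).factorial : ℝ) * (3 : ℕ))⁻¹)) :=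
        mul_le_mul_of_nonneg_left h3 (norm_nonneg _)
    _ ≤ ‖(n : ℂ)‖ * (‖c * s n‖ ^ 3 * 1) := by
        gcongr
        norm_num [Nat.factorial]
    _ = (‖(n : ℂ)‖ * ‖s n‖ ^ 2) * (‖c‖ ^ 2 * ‖c * s n‖) := by
        rw [norm_mul]; ring
    _ = ‖c‖ ^ 2 * ‖c * s n‖ := by rw [h5, one_mul]

/-- first order squared -/
lemma ex1 (c : ℂ) (s : ℕ → ℂ) (hs : Tendsto s atTop (𝓝 0))
    (hn : ∀ᶠ n : ℕ in atTop, (n : ℂ) * s n ^ 2 = 1) :
    Tendsto (fun n : ℕ => (n : ℂ) * (Complex.exp (c * s n) - 1) ^ 2) atTop (𝓝 (c ^ 2)) := by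
  have h2 := ex2 c s hs hn
  -- (z)^2 = (z - cs)^2 + 2 c s (z - c s) + c^2 s^2
  have h3 : Tendsto (fun n : ℕ => Complex.exp (c * s n) - 1 - c * s n) atTop (𝓝 0) := by
    have : Tendsto (fun n : ℕ => Complex.exp (c * s n) - 1 - c * s n) atTop
        (𝓝 (Complex.exp (c * 0) - 1 - c * 0)) := by
      have hc := hs.const_mul c
      exact ((Complex.continuous_exp.tendsto _).comp hc |>.sub_const 1).sub hc
    simpa using this
  have h4 : Tendsto (fun n : ℕ => (n : ℂ) * (Complex.exp (c * s n) - 1 - c * s n) *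
      (Complex.exp (c * s n) - 1 - c * s n) + 2 * c * s n *
      ((n : ℂ) * (Complex.exp (c * s n) - 1 - c * s n)) + c ^ 2 * 1) atTop
      (𝓝 (c ^ 2 / 2 * 0 + 2 * c * 0 * (c ^ 2 / 2) + c ^ 2 * 1)) :=
    ((h2.mul h3).add ((hs.const_mul (2 * c)).mul h2)).add tendsto_const_nhds
  have h5 : (c ^ 2 / 2 * 0 + 2 * c * 0 * (c ^ 2 / 2) + c ^ 2 * 1) = c ^ 2 := by ring
  rw [h5] at h4
  refine h4.congr' ?_
  filter_upwards [hn] with n hn
  linear_combination (-(c ^ 2)) * hn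

theorem pow_limit (θ : ℝ) (ρ : ℕ → ℂ) (C : ℝ)
    (h : ∀ᶠ n : ℕ in atTop,
      ‖ρ n - (1 + (Complex.exp 1 - 3) * (Complex.exp ((θ / Real.sqrt n : ℝ) * Complex.I) - 1)
        + (Complex.exp 1 ^ 2 - 9 / 2 * Complex.exp 1 + 5) *
          (Complex.exp ((θ / Real.sqrt n : ℝ) * Complex.I) - 1) ^ 2)‖
        ≤ C * ‖Complex.exp ((θ / Real.sqrt n : ℝ) * Complex.I) - 1‖ ^ 3) :
    Tendsto (fun n : ℕ => (ρ n)⁻¹ ^ n *
        Complex.exp (-((θ * (3 - Real.exp 1) * Real.sqrt n : ℝ) : ℂ) * Complex.I)) atTop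
      (𝓝 (Complex.exp (-((2 + 2 * Real.exp 1 - Real.exp 1 ^ 2) * θ ^ 2 / 2 : ℝ)))) := by
  set e : ℂ := Complex.exp 1 with he
  have heR : Complex.exp 1 = e := he.symm
  set s : ℕ → ℂ := fun n => ((1 / Real.sqrt n : ℝ) : ℂ) with hsdef
  have hs : Tendsto s atTop (𝓝 0) := by
    have h1 : Tendsto (fun n : ℕ => 1 / Real.sqrt n) atTop (𝓝 0) := by
      have h2 : Tendsto (fun n : ℕ => Real.sqrt (n : ℝ)) atTop atTop :=
        Real.tendsto_sqrt_atTop.comp tendsto_natCast_atTop_atTop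
      have h3 := h2.inv_tendsto_atTop
      refine h3.congr fun n => ?_
      simp
    have h3 := (Complex.continuous_ofReal.tendsto 0).comp h1
    rw [Complex.ofReal_zero] at h3
    exact h3
  have hn : ∀ᶠ n : ℕ in atTop, (n : ℂ) * s n ^ 2 = 1 := by
    filter_upwards [eventually_gt_atTop 0] with n hn
    have h1 : (0 : ℝ) < n := by exact_mod_cast hn
    have h2 : (n : ℝ) * (1 / Real.sqrt n) ^ 2 = 1 := by
      rw [div_pow, one_pow, Real.sq_sqrt h1.le]; field_simp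
    have := congrArg (fun x : ℝ => (x : ℂ)) h2
    simp only [hsdef]
    push_cast at this ⊢
    exact this
  set a : ℂ := θ * Complex.I with ha
  have hz : ∀ n : ℕ, Complex.exp ((θ / Real.sqrt n : ℝ) * Complex.I) = Complex.exp (a * s n) := by
    intro n; congr 1; simp only [hsdef, ha]; push_cast; ring
  simp only [hz] at h
  set z : ℕ → ℂ := fun n => Complex.exp (a * s n) - 1 with hzdef
  set P : ℕ → ℂ := fun n => 1 + (e - 3) * z n + (e ^ 2 - 9 / 2 * e + 5) * z n ^ 2 with hP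
  have hρP : ∀ᶠ n : ℕ in atTop, ‖ρ n - P n‖ ≤ C * ‖z n‖ ^ 3 := h
  have hz0 : Tendsto z atTop (𝓝 0) := by
    have : Tendsto z atTop (𝓝 (Complex.exp (a * 0) - 1)) :=
      ((Complex.continuous_exp.tendsto _).comp (hs.const_mul a)).sub_const 1
    simpa using this
  have hz2 := ex1 a s hs hn
  have hn3 : Tendsto (fun n : ℕ => ‖(n : ℂ) * z n ^ 2‖ * (C * ‖z n‖)) atTop (𝓝 0) := by
    have := hz2.norm.mul ((hz0.norm).const_mul C)
    simpa using this
  have hρn : Tendsto (fun n : ℕ => (n : ℂ) * (ρ n - P n)) atTop (𝓝 0) := by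
    rw [tendsto_zero_iff_norm_tendsto_zero]
    refine squeeze_zero' (Eventually.of_forall fun n => norm_nonneg _) ?_ hn3
    filter_upwards [hρP] with n hρP
    rw [norm_mul]
    calc ‖(n : ℂ)‖ * ‖ρ n - P n‖ ≤ ‖(n : ℂ)‖ * (C * ‖z n‖ ^ 3) :=
          mul_le_mul_of_nonneg_left hρP (norm_nonneg _)
      _ = ‖(n : ℂ) * z n ^ 2‖ * (C * ‖z n‖) := by rw [norm_mul, norm_pow]; ring
  have hP1 : Tendsto P atTop (𝓝 1) := by
    have : Tendsto P atTop (𝓝 (1 + (e - 3) * 0 + (e ^ 2 - 9 / 2 * e + 5) * 0 ^ 2)) :=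
      (tendsto_const_nhds.add (hz0.const_mul _)).add ((hz0.pow 2).const_mul _)
    simpa using this
  have hρ1 : Tendsto ρ atTop (𝓝 1) := by
    have h1 : Tendsto (fun n => ρ n - P n) atTop (𝓝 0) := by
      rw [tendsto_zero_iff_norm_tendsto_zero]
      have h2 : Tendsto (fun n => C * ‖z n‖ ^ 3) atTop (𝓝 0) := by
        have := ((hz0.norm).pow 3).const_mul C
        simpa using this
      exact squeeze_zero' (Eventually.of_forall fun n => norm_nonneg _) hρP h2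
    have h2 := h1.add hP1
    simpa using h2
  set c : ℂ := (e - 3) * a with hc
  have hf := ex2 c s hs hn
  have hg := ex2 a s hs hn
  -- the numerator
  have hnum : Tendsto (fun n : ℕ => (n : ℂ) * (Complex.exp (c * s n) - ρ n)) atTop
      (𝓝 (c ^ 2 / 2 - (e - 3) * (a ^ 2 / 2) - (e ^ 2 - 9 / 2 * e + 5) * a ^ 2 - 0)) := by
    have := ((hf.sub (hg.const_mul (e - 3))).sub (hz2.const_mul (e ^ 2 - 9 / 2 * e + 5))).sub hρn
    refine this.congr fun n => ?_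
    simp only [hP, hzdef, hc]
    ring
  have hu : Tendsto (fun n : ℕ => (n : ℂ) * ((ρ n)⁻¹ * Complex.exp (c * s n) - 1)) atTop
      (𝓝 (1⁻¹ * (c ^ 2 / 2 - (e - 3) * (a ^ 2 / 2) - (e ^ 2 - 9 / 2 * e + 5) * a ^ 2 - 0))) := by
    refine ((hρ1.inv₀ one_ne_zero).mul hnum).congr' ?_
    filter_upwards [hρ1.eventually_ne one_ne_zero] with n hne
    field_simp
  have hk := Complex.tendsto_one_add_pow_exp_of_tendsto hu
  have hval : (1⁻¹ * (c ^ 2 / 2 - (e - 3) * (a ^ 2 / 2) - (e ^ 2 - 9 / 2 * e + 5) * a ^ 2 - 0))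
      = -((2 + 2 * Real.exp 1 - Real.exp 1 ^ 2) * θ ^ 2 / 2 : ℝ) := by
    push_cast
    rw [heR, hc, ha]
    have hI : Complex.I ^ 2 = -1 := Complex.I_sq
    linear_combination ((e - 3) ^ 2 / 2 - (e - 3) / 2 - (e ^ 2 - 9 / 2 * e + 5)) * (θ : ℂ) ^ 2 * hI
  rw [hval] at hk
  refine hk.congr' ?_
  filter_upwards [eventually_gt_atTop 0] with n hn0
  rw [add_sub_cancel, mul_pow, ← Complex.exp_nat_mul]
  congr 2
  have h1 : (0 : ℝ) < n := by exact_mod_cast hn0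
  have h2 : (n : ℝ) * (1 / Real.sqrt n) = Real.sqrt n := by
    have h3 := Real.mul_self_sqrt h1.le
    have h4 : Real.sqrt n ≠ 0 := (Real.sqrt_pos.2 h1).ne'
    field_simp
    nlinarith
  have h3 : (n : ℂ) * s n = ((Real.sqrt n : ℝ) : ℂ) := by
    rw [← h2]; simp [hsdef]
  push_cast
  rw [heR, hc, ha]
  linear_combination (e - 3) * (θ * Complex.I) * h3

end Pool.Agent.H469R2.Stk
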